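import Mathlib
import Pool.Agent.H392Z.MO.Spec2

set_option autoImplicit false

open Filter Topology Finset

namespace Pool.Agent.H63Z.MO

open Pool.Agent.H392Z.MO

lemma mem_B {A : ℝ} {i n : ℕ} : n ∈ B A i ↔ (i : ℝ) ^ A ≤ n ∧ (n : ℝ) < ((i : ℝ) + 1) ^ A := by
  simp only [B, tt, Finset.mem_Ico, Nat.ceil_le, Nat.lt_ceil, Nat.cast_add, Nat.cast_one]

lemma root_mem {A : ℝ} (hA : 0 < A) {i n : ℕ} (h : n ∈ B A i) :
    (i : ℝ) ≤ (n : ℝ) ^ (1 / A) ∧ (n : ℝ) ^ (1 / A) < i + 1 := by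
  obtain ⟨h1, h2⟩ := mem_B.1 h
  have hi : (0 : ℝ) ≤ i := Nat.cast_nonneg i
  have hn : (0 : ℝ) ≤ n := Nat.cast_nonneg n
  have ha : 0 < 1 / A := by positivity
  constructor
  · have := Real.rpow_le_rpow (Real.rpow_nonneg hi A) h1 ha.le
    rwa [← Real.rpow_mul hi, mul_one_div_cancel hA.ne', Real.rpow_one] at this
  · have := Real.rpow_lt_rpow hn h2 ha
    rwa [← Real.rpow_mul (by linarith), mul_one_div_cancel hA.ne', Real.rpow_one] at this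

lemma lip {A : ℝ} (h1 : 1 ≤ A) (h2 : A ≤ 2) {i : ℕ} (hi : 1 ≤ i) {u v : ℝ} (hu : (i : ℝ) ≤ u)
    (huv : u ≤ v) (hv : v ≤ i + 1) : v ^ A - u ^ A ≤ 4 * HH A i * (v - u) := by
  have hi' : (1 : ℝ) ≤ i := by exact_mod_cast hi
  have hv0 : 0 < v := by linarith
  have hu0 : 0 < u := by linarith
  have hb := one_add_mul_self_le_rpow_one_add (s := u / v - 1)
    (by have : 0 ≤ u / v := by positivity
        linarith) h1
  rw [add_sub_cancel, Real.div_rpow hu0.le hv0.le, le_div_iff₀ (Real.rpow_pos_of_pos hv0 A)] at hb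
  have e : v ^ A = v ^ (A - 1) * v := by
    rw [Real.rpow_sub_one hv0.ne']; field_simp
  have h3 : v ^ (A - 1) ≤ 2 * HH A i := by
    calc v ^ (A - 1) ≤ (2 * (i : ℝ)) ^ (A - 1) :=
          Real.rpow_le_rpow hv0.le (by linarith) (by linarith)
      _ = (2 : ℝ) ^ (A - 1) * HH A i := by rw [Real.mul_rpow (by norm_num) (by linarith), HH]
      _ ≤ 2 * HH A i := by
          refine mul_le_mul_of_nonneg_right ?_ (Real.rpow_nonneg (by linarith) _)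
          calc (2 : ℝ) ^ (A - 1) ≤ (2 : ℝ) ^ (1 : ℝ) :=
                Real.rpow_le_rpow_of_exponent_le (by norm_num) (by linarith)
            _ = 2 := Real.rpow_one 2
  have h4 : (1 + A * (u / v - 1)) * v ^ A = v ^ A - A * v ^ (A - 1) * (v - u) := by
    rw [e]; field_simp; ring
  rw [h4] at hb
  have h5 : 0 ≤ v ^ (A - 1) := Real.rpow_nonneg hv0.le _
  have h6 : A * v ^ (A - 1) ≤ 4 * HH A i := by nlinarith
  have h7 := mul_le_mul_of_nonneg_right h6 (sub_nonneg.2 huv)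
  linarith

open Classical in
lemma countG {CR A : ℝ} (hCR : 0 < CR) (hR : RoughBound CR) (h1 : 199 / 100 ≤ A) (h2 : A < 2)
    {i : ℕ} (hi : 1024 ≤ i) {q : ℝ} (hq : 1 ≤ q) (hqi : q ^ 4 ≤ (i : ℝ) ^ (1 / 100 : ℝ)) (x : ℝ) :
    (((B A i).filter (fun p : ℕ => p.Prime ∧ |(p : ℝ) ^ (1 / A) - x| ≤ 4 / q ^ 2)).card : ℝ) ≤
      400 * CR * HH A i / (q ^ 2 * Real.log i) := by
  have hi' : (1024 : ℝ) ≤ i := by exact_mod_cast hi
  have hi0 : (0 : ℝ) < i := by linarith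
  have hi1 : (1 : ℝ) ≤ i := by linarith
  have hlog : 0 < Real.log i := Real.log_pos (by linarith)
  have hHH : 0 < HH A i := Real.rpow_pos_of_pos hi0 _
  set S := (B A i).filter (fun p : ℕ => p.Prime ∧ |(p : ℝ) ^ (1 / A) - x| ≤ 4 / q ^ 2) with hS
  rcases S.eq_empty_or_nonempty with h0 | hne
  · rw [h0]; simp only [card_empty, Nat.cast_zero]; positivity
  set n0 := S.min' hne with hn0
  have hn0S : n0 ∈ S := S.min'_mem hne
  set w : ℝ := (i : ℝ) ^ (1 / 10 : ℝ) with hw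
  set h : ℝ := 40 * HH A i / q ^ 2 with hh
  have hw2 : 2 ≤ w := by
    have : ((2 : ℝ) ^ (10 : ℕ)) ^ (1 / 10 : ℝ) ≤ w := Real.rpow_le_rpow (by positivity) (by norm_num; linarith) (by norm_num)
    rwa [← Real.rpow_natCast, ← Real.rpow_mul (by norm_num), show ((10 : ℕ) : ℝ) * (1 / 10) = 1 by norm_num, Real.rpow_one] at this
  have hw5 : w ^ 5 ≤ h := by
    have e1 : w ^ 5 = (i : ℝ) ^ (1 / 2 : ℝ) := by
      rw [hw, ← Real.rpow_natCast, ← Real.rpow_mul hi0.le]; norm_num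
    have e2 : q ^ 2 ≤ (i : ℝ) ^ (1 / 100 : ℝ) := le_trans (pow_le_pow_right₀ hq (by norm_num)) hqi
    have e3 : (i : ℝ) ^ (1 / 2 : ℝ) * (i : ℝ) ^ (1 / 100 : ℝ) ≤ HH A i := by
      rw [← Real.rpow_add hi0, HH]
      exact Real.rpow_le_rpow_of_exponent_le hi1 (by linarith)
    rw [e1, hh, le_div_iff₀ (by positivity)]
    have e4 : 0 ≤ (i : ℝ) ^ (1 / 2 : ℝ) := Real.rpow_nonneg hi0.le _
    nlinarith [mul_le_mul_of_nonneg_left e2 e4]
  have hsub : S ⊆ (Ival n0 h).filter (Rough w) := by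
    intro n hn
    have hle : n0 ≤ n := S.min'_le n hn
    obtain ⟨hnB, hnp, hnx⟩ := Finset.mem_filter.1 hn
    obtain ⟨h0B, -, h0x⟩ := Finset.mem_filter.1 hn0S
    have hA0 : 0 < A := by linarith
    obtain ⟨a1, a2⟩ := root_mem hA0 hnB
    obtain ⟨b1, b2⟩ := root_mem hA0 h0B
    have hle' : (n0 : ℝ) ≤ n := by exact_mod_cast hle
    have hmono : (n0 : ℝ) ^ (1 / A) ≤ (n : ℝ) ^ (1 / A) :=
      Real.rpow_le_rpow (Nat.cast_nonneg _) hle' (by positivity)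
    have hl := lip (A := A) (by linarith) h2.le (by omega : 1 ≤ i) b1 hmono a2.le
    rw [← Real.rpow_mul (Nat.cast_nonneg _), ← Real.rpow_mul (Nat.cast_nonneg _),
      one_div_mul_cancel hA0.ne', Real.rpow_one, Real.rpow_one] at hl
    have hd : (n : ℝ) ^ (1 / A) - (n0 : ℝ) ^ (1 / A) ≤ 8 / q ^ 2 := by
      have c1 := (abs_le.1 hnx).2
      have c2 := (abs_le.1 h0x).1
      have : 8 / q ^ 2 = 4 / q ^ 2 + 4 / q ^ 2 := by ring
      linarith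
    have hlt : (n : ℝ) < n0 + h := by
      have c1 : 4 * HH A i * ((n : ℝ) ^ (1 / A) - (n0 : ℝ) ^ (1 / A)) ≤ 4 * HH A i * (8 / q ^ 2) :=
        mul_le_mul_of_nonneg_left hd (by positivity)
      have c2 : h = 4 * HH A i * (8 / q ^ 2) + 8 * HH A i / q ^ 2 := by rw [hh]; ring
      have c3 : 0 < 8 * HH A i / q ^ 2 := by positivity
      linarith
    refine Finset.mem_filter.2 ⟨?_, ?_⟩
    · simp only [Ival, Finset.mem_Ico, Nat.ceil_le, Nat.lt_ceil]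
      exact ⟨hle', hlt⟩
    · intro p hp hpn
      rw [(Nat.prime_dvd_prime_iff_eq hp hnp).1 hpn]
      calc w < (i : ℝ) ^ A := Real.rpow_lt_rpow_of_exponent_lt (by linarith) (by linarith)
        _ ≤ n := (mem_B.1 hnB).1
  have hc := hR n0 h w (Nat.cast_nonneg _) hw2 hw5
  have hlw : Real.log w = Real.log i / 10 := by rw [hw, Real.log_rpow hi0]; ring
  calc (S.card : ℝ) ≤ (((Ival n0 h).filter (Rough w)).card : ℝ) := by
        exact_mod_cast Finset.card_le_card hsub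
    _ ≤ CR * h / Real.log w := hc
    _ = 400 * CR * HH A i / (q ^ 2 * Real.log i) := by rw [hlw, hh]; field_simp; ring

open Classical in
/-- the admissible poor blocks for the divisor `ρ` -/
noncomputable def T (A : ℝ) (i ρ : ℕ) : Finset ℕ :=
  (Finset.range ((i + 3) * ρ + 1)).filter
    (fun j : ℕ => Poor A j ∧ |(j : ℝ) * (ρ : ℝ) ^ (-(1 / A)) - i| ≤ 3)

lemma wt_eq (A lam : ℝ) (i : ℕ) : wt A lam i =
    ∑ ρ ∈ Finset.Icc 1 ⌊(i : ℝ) ^ (10 * lam)⌋₊, ∑ _j ∈ T A i ρ, (ρ : ℝ) ^ (-(1 / 4 : ℝ)) := rfl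

lemma uniq {A : ℝ} (h1 : 1 ≤ A) (h2 : A < 2) {i : ℕ} (hi : 1024 ≤ i) {j ρ1 ρ2 : ℕ} (h0 : 1 ≤ ρ1)
    (hlt : ρ1 < ρ2) (hρ : (ρ1 : ℝ) ≤ (i : ℝ) ^ (1 / 2 : ℝ)) (a1 : j ∈ T A i ρ1)
    (a2 : j ∈ T A i ρ2) : False := by
  classical
  have hi' : (1024 : ℝ) ≤ i := by exact_mod_cast hi
  have b1 := (abs_le.1 (Finset.mem_filter.1 a1).2.2).2
  have b2 := (abs_le.1 (Finset.mem_filter.1 a2).2.2).1
  have hρ1 : (1 : ℝ) ≤ ρ1 := by exact_mod_cast h0
  have hρ2 : (ρ1 : ℝ) + 1 ≤ ρ2 := by exact_mod_cast hlt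
  have hA0 : 0 < A := by linarith
  set s : ℝ := (ρ2 : ℝ) / ρ1 with hs
  have hs1 : 1 ≤ s := by rw [hs, le_div_iff₀ (by linarith)]; linarith
  have e : (ρ1 : ℝ) ^ (-(1 / A)) = s ^ (1 / A) * (ρ2 : ℝ) ^ (-(1 / A)) := by
    rw [hs, Real.div_rpow (by linarith) (by linarith), Real.rpow_neg (by linarith),
      Real.rpow_neg (by linarith)]
    have : 0 < (ρ2 : ℝ) ^ (1 / A) := Real.rpow_pos_of_pos (by linarith) _
    field_simp
  have c1 : s ^ (1 / 2 : ℝ) ≤ s ^ (1 / A) :=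
    Real.rpow_le_rpow_of_exponent_le hs1 (one_div_le_one_div_of_le hA0 h2.le)
  set t : ℝ := s ^ (1 / 2 : ℝ) with ht
  have ht0 : 0 ≤ t := Real.rpow_nonneg (by linarith) _
  have htt : t * t = s := by
    rw [ht, ← Real.rpow_add (by linarith)]; norm_num
  have c2 : t * ((i : ℝ) - 3) ≤ i + 3 := by
    calc t * ((i : ℝ) - 3) ≤ s ^ (1 / A) * ((j : ℝ) * (ρ2 : ℝ) ^ (-(1 / A))) :=
          mul_le_mul c1 (by linarith) (by linarith) (by linarith)
      _ = (j : ℝ) * (ρ1 : ℝ) ^ (-(1 / A)) := by rw [e]; ring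
      _ ≤ i + 3 := by linarith
  have c3 : s * ((i : ℝ) - 3) ^ 2 ≤ ((i : ℝ) + 3) ^ 2 := by
    have := mul_self_le_mul_self (mul_nonneg ht0 (by linarith)) c2
    calc s * ((i : ℝ) - 3) ^ 2 = t * ((i : ℝ) - 3) * (t * ((i : ℝ) - 3)) := by rw [← htt]; ring
      _ ≤ _ := by rw [sq]; exact this
  have c4 : ((ρ1 : ℝ) + 1) * ((i : ℝ) - 3) ^ 2 ≤ ρ1 * ((i : ℝ) + 3) ^ 2 := by
    have : (ρ2 : ℝ) = ρ1 * s := by rw [hs]; field_simp
    calc ((ρ1 : ℝ) + 1) * ((i : ℝ) - 3) ^ 2 ≤ ρ2 * ((i : ℝ) - 3) ^ 2 :=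
          mul_le_mul_of_nonneg_right hρ2 (sq_nonneg _)
      _ = ρ1 * (s * ((i : ℝ) - 3) ^ 2) := by rw [this]; ring
      _ ≤ _ := mul_le_mul_of_nonneg_left c3 (by linarith)
  set m : ℝ := (i : ℝ) ^ (1 / 2 : ℝ) with hm
  have hmm : m * m = i := by rw [hm, ← Real.rpow_add (by linarith)]; norm_num
  have hm32 : 32 ≤ m := by
    by_contra hc
    push Not at hc
    have : m * m < 32 * 32 := mul_self_lt_mul_self (by linarith) hc
    linarith
  have c5 : ((i : ℝ) - 3) ^ 2 ≤ 12 * i * m := by nlinarith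
  have c6 : 32 * m ≤ i := by nlinarith
  nlinarith

lemma sumP {A lam C : ℝ} (h1 : 1 ≤ A) (h2 : A < 2) (hl0 : 0 < lam) (hl : lam ≤ 1 / 10000)
    (hsp : Sparse {j | Poor A j} C lam) {i : ℕ} (hi : 1024 ≤ i)
    (hC : C ≤ (i : ℝ) ^ (lam / 2)) (hm : i ∉ Mem A lam) :
    ∑ ρ ∈ Finset.Icc 1 ⌊(i : ℝ) ^ (120 * lam)⌋₊, ∑ _j ∈ T A i ρ, (ρ : ℝ) ^ (-(1 / 4 : ℝ)) ≤ 2 := by
  classical
  have hi' : (1024 : ℝ) ≤ i := by exact_mod_cast hi
  have hi0 : (0 : ℝ) < i := by linarith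
  have hi1 : (1 : ℝ) ≤ i := by linarith
  set M := ⌊(i : ℝ) ^ (10 * lam)⌋₊ with hM
  set N := ⌊(i : ℝ) ^ (120 * lam)⌋₊ with hN
  have hMN : M ≤ N := Nat.floor_le_floor (Real.rpow_le_rpow_of_exponent_le hi1 (by linarith))
  have hsplit : Finset.Icc 1 N = Finset.Icc 1 M ∪ Finset.Ioc M N := by
    ext x; simp only [Finset.mem_Icc, Finset.mem_union, Finset.mem_Ioc]; omega
  have hdis : Disjoint (Finset.Icc 1 M) (Finset.Ioc M N) := by
    rw [Finset.disjoint_left]; intro x; simp only [Finset.mem_Icc, Finset.mem_Ioc]; omega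
  rw [hsplit, Finset.sum_union hdis, ← wt_eq]
  have hwt : wt A lam i < 1 := lt_of_not_ge hm
  have hNle : ∀ ρ ∈ Finset.Ioc M N, (ρ : ℝ) ≤ (i : ℝ) ^ (1 / 2 : ℝ) := by
    intro ρ hρ
    have : (ρ : ℝ) ≤ N := by exact_mod_cast (Finset.mem_Ioc.1 hρ).2
    exact this.trans ((Nat.floor_le (Real.rpow_nonneg hi0.le _)).trans
      (Real.rpow_le_rpow_of_exponent_le hi1 (by linarith)))
  have hterm : ∀ ρ ∈ Finset.Ioc M N, (ρ : ℝ) ^ (-(1 / 4 : ℝ)) ≤ (i : ℝ) ^ (-(5 / 2 * lam)) := by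
    intro ρ hρ
    have a1 : (i : ℝ) ^ (10 * lam) ≤ ρ :=
      (Nat.lt_of_floor_lt (Finset.mem_Ioc.1 hρ).1).le
    calc (ρ : ℝ) ^ (-(1 / 4 : ℝ)) ≤ ((i : ℝ) ^ (10 * lam)) ^ (-(1 / 4 : ℝ)) :=
          Real.rpow_le_rpow_of_nonpos (Real.rpow_pos_of_pos hi0 _) a1 (by norm_num)
      _ = _ := by rw [← Real.rpow_mul hi0.le]; congr 1; ring
  have hcard : ∑ ρ ∈ Finset.Ioc M N, (T A i ρ).card ≤
      ((Finset.range (i ^ 2 + 1)).filter (fun c => c ∈ {j | Poor A j})).card := by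
    rw [← Finset.card_biUnion]
    · refine Finset.card_le_card ?_
      intro j hj
      obtain ⟨ρ, hρ, hjρ⟩ := Finset.mem_biUnion.1 hj
      obtain ⟨a1, a2, -⟩ := Finset.mem_filter.1 hjρ
      refine Finset.mem_filter.2 ⟨Finset.mem_range.2 ?_, a2⟩
      have a3 := Finset.mem_range.1 a1
      have a4 : (((i + 3) * ρ : ℕ) : ℝ) ≤ ((i ^ 2 : ℕ) : ℝ) := by
        push_cast
        have b1 := hNle ρ hρ
        set m : ℝ := (i : ℝ) ^ (1 / 2 : ℝ) with hm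
        have hmm : m * m = i := by rw [hm, ← Real.rpow_add (by linarith)]; norm_num
        have hm32 : 32 ≤ m := by
          by_contra hc
          push Not at hc
          have : m * m < 32 * 32 := mul_self_lt_mul_self (Real.rpow_nonneg hi0.le _) hc
          linarith
        have c6 : 32 * m ≤ i := by nlinarith
        nlinarith
      have a5 : (i + 3) * ρ ≤ i ^ 2 := by exact_mod_cast a4
      omega
    · intro ρ1 hρ1 ρ2 hρ2 hne
      rw [Function.onFun, Finset.disjoint_left]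
      intro j a1 a2
      have p1 : 1 ≤ ρ1 := by have := (Finset.mem_Ioc.1 hρ1).1; omega
      have p2 : 1 ≤ ρ2 := by have := (Finset.mem_Ioc.1 hρ2).1; omega
      rcases lt_or_gt_of_ne hne with h | h
      · exact uniq h1 h2 hi p1 h (hNle ρ1 hρ1) a1 a2
      · exact uniq h1 h2 hi p2 h (hNle ρ2 hρ2) a2 a1
  have hsp' := hsp (i ^ 2) (Nat.one_le_pow _ _ (by omega))
  have hpart : ∑ ρ ∈ Finset.Ioc M N, ∑ _j ∈ T A i ρ, (ρ : ℝ) ^ (-(1 / 4 : ℝ)) ≤ 1 := by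
    calc ∑ ρ ∈ Finset.Ioc M N, ∑ _j ∈ T A i ρ, (ρ : ℝ) ^ (-(1 / 4 : ℝ))
        ≤ ∑ ρ ∈ Finset.Ioc M N, ((T A i ρ).card : ℝ) * (i : ℝ) ^ (-(5 / 2 * lam)) := by
          refine Finset.sum_le_sum fun ρ hρ => ?_
          rw [Finset.sum_const, nsmul_eq_mul]
          exact mul_le_mul_of_nonneg_left (hterm ρ hρ) (Nat.cast_nonneg _)
      _ = ((∑ ρ ∈ Finset.Ioc M N, (T A i ρ).card : ℕ) : ℝ) * (i : ℝ) ^ (-(5 / 2 * lam)) := by
          rw [← Finset.sum_mul]; push_cast; rfl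
      _ ≤ ((i : ℝ) ^ (lam / 2) * ((i ^ 2 : ℕ) : ℝ) ^ lam) * (i : ℝ) ^ (-(5 / 2 * lam)) := by
          refine mul_le_mul_of_nonneg_right ?_ (Real.rpow_nonneg hi0.le _)
          refine le_trans (Nat.cast_le.2 hcard) (le_trans ?_
            (mul_le_mul_of_nonneg_right hC (Real.rpow_nonneg (Nat.cast_nonneg _) _)))
          convert hsp' using 3
      _ = 1 := by
          push_cast
          rw [← Real.rpow_natCast, ← Real.rpow_mul hi0.le, ← Real.rpow_add hi0,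
            ← Real.rpow_add hi0]
          rw [show lam / 2 + ((2 : ℕ) : ℝ) * lam + -(5 / 2 * lam) = 0 by push_cast; ring,
            Real.rpow_zero]
  linarith

open Classical in
/-- the dyadic majorant -/
noncomputable def F (A : ℝ) (i : ℕ) (s : ℝ) (p : ℕ) (x : ℝ) : ℝ :=
  ∑ k ∈ Finset.range (i + 1),
    if (2 ^ k * s) ^ 4 ≤ (i : ℝ) ^ (1 / 100 : ℝ) ∧ |(p : ℝ) ^ (1 / A) - x| ≤ 4 / (2 ^ k * s) ^ 2
    then 2 * (2 ^ k * s) else 0

lemma F_nonneg (A : ℝ) (i : ℕ) {s : ℝ} (hs : 0 ≤ s) (p : ℕ) (x : ℝ) : 0 ≤ F A i s p x := by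
  classical
  refine Finset.sum_nonneg fun k _ => ?_
  split_ifs
  · positivity
  · exact le_rfl

lemma sum_F {CR A : ℝ} (hCR : 0 < CR) (hR : RoughBound CR) (h1 : 199 / 100 ≤ A) (h2 : A < 2)
    {i : ℕ} (hi : 1024 ≤ i) {s : ℝ} (hs : 1 ≤ s) (S : Finset ℕ)
    (hS : ∀ p ∈ S, p ∈ B A i ∧ p.Prime) (x : ℝ) :
    ∑ p ∈ S, F A i s p x ≤ 1600 * CR * HH A i / (s * Real.log i) := by
  classical
  have hi' : (1024 : ℝ) ≤ i := by exact_mod_cast hi
  have hlog : 0 < Real.log i := Real.log_pos (by linarith)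
  have hHH : 0 < HH A i := Real.rpow_pos_of_pos (by linarith) _
  simp only [F]
  rw [Finset.sum_comm]
  have hk : ∀ k ∈ Finset.range (i + 1), (∑ p ∈ S,
      if (2 ^ k * s) ^ 4 ≤ (i : ℝ) ^ (1 / 100 : ℝ) ∧ |(p : ℝ) ^ (1 / A) - x| ≤ 4 / (2 ^ k * s) ^ 2
      then 2 * (2 ^ k * s) else 0) ≤ 800 * CR * HH A i / (s * Real.log i) * (1 / 2) ^ k := by
    intro k _
    have hq : (1 : ℝ) ≤ 2 ^ k * s := one_le_mul_of_one_le_of_one_le (one_le_pow₀ (by norm_num)) hs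
    by_cases hc : (2 ^ k * s) ^ 4 ≤ (i : ℝ) ^ (1 / 100 : ℝ)
    · rw [← Finset.sum_filter, Finset.sum_const, nsmul_eq_mul]
      have hsub : S.filter (fun p : ℕ => (2 ^ k * s) ^ 4 ≤ (i : ℝ) ^ (1 / 100 : ℝ) ∧
          |(p : ℝ) ^ (1 / A) - x| ≤ 4 / (2 ^ k * s) ^ 2) ⊆
          (B A i).filter (fun p : ℕ => p.Prime ∧ |(p : ℝ) ^ (1 / A) - x| ≤ 4 / (2 ^ k * s) ^ 2) := by
        intro p hp
        obtain ⟨a1, -, a2⟩ := Finset.mem_filter.1 hp
        exact Finset.mem_filter.2 ⟨(hS p a1).1, (hS p a1).2, a2⟩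
      have hc' := (Nat.cast_le.2 (Finset.card_le_card hsub)).trans
        (countG hCR hR h1 h2 hi hq hc x)
      refine (mul_le_mul_of_nonneg_right hc' (by positivity)).trans (le_of_eq ?_)
      rw [one_div, inv_pow]
      field_simp
      ring
    · simp only [hc, false_and, if_false, Finset.sum_const_zero]
      positivity
  refine (Finset.sum_le_sum hk).trans ?_
  rw [← Finset.mul_sum]
  have := sum_geometric_two_le (i + 1)
  calc 800 * CR * HH A i / (s * Real.log i) * ∑ k ∈ Finset.range (i + 1), (1 / 2 : ℝ) ^ k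
      ≤ 800 * CR * HH A i / (s * Real.log i) * 2 :=
        mul_le_mul_of_nonneg_left this (by positivity)
    _ = _ := by ring

lemma key {A lam : ℝ} (h1 : 199 / 100 ≤ A) (h2 : A < 2) (hl0 : 0 < lam) (hl : lam ≤ 1 / 10000)
    {i : ℕ} (hi : 1024 ≤ i) {s : ℝ} (hs : 2 ≤ s) {p c r : ℕ} (hp : p ∈ B A i)
    (hc : c ∈ Mem A lam) (hr1 : s ^ 4 < r) (hr2 : (r : ℝ) ≤ (i : ℝ) ^ (100 * lam))
    (hrp : r * p ∈ B A c) :
    1 ≤ ∑ ρ ∈ Finset.Icc 1 ⌊(i : ℝ) ^ (120 * lam)⌋₊, ∑ j ∈ T A i ρ,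
      (ρ : ℝ) ^ (-(1 / 4 : ℝ)) * F A i s p ((j : ℝ) * (ρ : ℝ) ^ (-(1 / A))) := by
  classical
  have hi' : (1024 : ℝ) ≤ i := by exact_mod_cast hi
  have hi0 : (0 : ℝ) < i := by linarith
  have hi1 : (1 : ℝ) ≤ i := by linarith
  have hA0 : 0 < A := by linarith
  have hs0 : 0 < s := by linarith
  have hs4 : (16 : ℝ) ≤ s ^ 4 := by
    calc (16 : ℝ) = 2 ^ 4 := by norm_num
      _ ≤ s ^ 4 := pow_le_pow_left₀ (by norm_num) hs 4
  have hr16 : (16 : ℝ) < r := by linarith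
  have hr0 : (0 : ℝ) < r := by linarith
  have hrN : 0 < r := by exact_mod_cast hr0
  have hr3 : (r : ℝ) ≤ (i : ℝ) ^ (1 / 100 : ℝ) :=
    hr2.trans (Real.rpow_le_rpow_of_exponent_le hi1 (by linarith))
  obtain ⟨k, hk1, hk2⟩ := exists_nat_pow_near (x := (r : ℝ) / s ^ 4) (y := (16 : ℝ))
    (by rw [le_div_iff₀ (by positivity)]; linarith) (by norm_num)
  set q : ℝ := 2 ^ k * s with hq
  have hq4 : q ^ 4 = 16 ^ k * s ^ 4 := by
    rw [hq, mul_pow, ← pow_mul, mul_comm k 4, pow_mul]; norm_num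
  have hq2 : 2 ≤ q := by
    have : (1 : ℝ) ≤ 2 ^ k := one_le_pow₀ (by norm_num)
    nlinarith
  have hqr : q ^ 4 ≤ r := by rw [hq4]; rwa [le_div_iff₀ (by positivity)] at hk1
  have hrq : (r : ℝ) ≤ (2 * q) ^ 4 := by
    rw [div_lt_iff₀ (by positivity), pow_succ] at hk2
    rw [mul_pow, hq4]; nlinarith
  have hki : k ∈ Finset.range (i + 1) := by
    rw [Finset.mem_range]
    have a1 : (k : ℝ) < 16 ^ k := by exact_mod_cast Nat.lt_pow_self (by norm_num : 1 < 16)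
    have a2 : (16 : ℝ) ^ k ≤ r := by
      have : (16 : ℝ) ^ k * 1 ≤ 16 ^ k * s ^ 4 := mul_le_mul_of_nonneg_left (by linarith) (by positivity)
      linarith
    have a3 : (i : ℝ) ^ (1 / 100 : ℝ) ≤ i := by
      simpa using Real.rpow_le_rpow_of_exponent_le hi1 (show (1 / 100 : ℝ) ≤ 1 by norm_num)
    have : (k : ℝ) < i := by linarith
    have : k < i := by exact_mod_cast this
    omega
  have hr14 : (r : ℝ) ^ (1 / 4 : ℝ) ≤ 2 * q := by
    calc (r : ℝ) ^ (1 / 4 : ℝ) ≤ ((2 * q) ^ 4) ^ (1 / 4 : ℝ) :=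
          Real.rpow_le_rpow hr0.le hrq (by norm_num)
      _ = 2 * q := by
          rw [← Real.rpow_natCast, ← Real.rpow_mul (by linarith)]; norm_num
  set δ : ℝ := (r : ℝ) ^ (-(1 / A)) with hδ
  have hδ0 : 0 < δ := Real.rpow_pos_of_pos hr0 _
  have hδq : δ ≤ 1 / q ^ 2 := by
    calc δ ≤ (r : ℝ) ^ (-(1 / 2 : ℝ)) :=
          Real.rpow_le_rpow_of_exponent_le (by linarith)
            (neg_le_neg (one_div_le_one_div_of_le hA0 h2.le))
      _ ≤ (q ^ 4) ^ (-(1 / 2 : ℝ)) :=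
          Real.rpow_le_rpow_of_nonpos (by positivity) hqr (by norm_num)
      _ = 1 / q ^ 2 := by
          rw [← Real.rpow_natCast, ← Real.rpow_mul (by linarith), one_div (q ^ 2),
            ← Real.rpow_natCast, ← Real.rpow_neg (by linarith)]
          norm_num
  have hδ4 : δ ≤ 1 / 4 := hδq.trans (one_div_le_one_div_of_le (by norm_num) (by nlinarith))
  obtain ⟨a1, a2⟩ := root_mem hA0 hp
  obtain ⟨b1, b2⟩ := root_mem hA0 hrp
  set u : ℝ := (p : ℝ) ^ (1 / A) with hu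
  have hru : ((r * p : ℕ) : ℝ) ^ (1 / A) = (r : ℝ) ^ (1 / A) * u := by
    push_cast; rw [Real.mul_rpow hr0.le (Nat.cast_nonneg _)]
  rw [hru] at b1 b2
  have hδr : δ * (r : ℝ) ^ (1 / A) = 1 := by
    rw [hδ, ← Real.rpow_add hr0]; simp
  have c1 : (c : ℝ) * δ ≤ u := by
    calc (c : ℝ) * δ ≤ (r : ℝ) ^ (1 / A) * u * δ := mul_le_mul_of_nonneg_right b1 hδ0.le
      _ = δ * (r : ℝ) ^ (1 / A) * u := by ring
      _ = u := by rw [hδr, one_mul]
  have c2 : u ≤ ((c : ℝ) + 1) * δ := by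
    calc u = (r : ℝ) ^ (1 / A) * u * δ := by
          rw [show (r : ℝ) ^ (1 / A) * u * δ = δ * (r : ℝ) ^ (1 / A) * u by ring, hδr, one_mul]
      _ ≤ _ := mul_le_mul_of_nonneg_right b2.le hδ0.le
  have hA1 : 1 / A ≤ 1 := by rw [div_le_one hA0]; linarith
  have hci : (c : ℝ) ≤ (i : ℝ) ^ (2 : ℝ) := by
    have d1 : (r : ℝ) ^ (1 / A) ≤ r := by
      simpa using Real.rpow_le_rpow_of_exponent_le (by linarith : (1 : ℝ) ≤ r) hA1
    set m : ℝ := (i : ℝ) ^ (1 / 2 : ℝ) with hm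
    have d2 : (r : ℝ) ≤ m := hr3.trans (Real.rpow_le_rpow_of_exponent_le hi1 (by norm_num))
    have hmm : m * m = i := by rw [hm, ← Real.rpow_add (by linarith)]; norm_num
    have d3 : (c : ℝ) ≤ m * (i + 1) :=
      b1.trans (mul_le_mul (d1.trans d2) a2.le (by linarith) (by linarith))
    have d4 : 16 * m ≤ i := by nlinarith
    rw [Real.rpow_two]
    nlinarith
  have hwt : 1 ≤ wt A lam c := hc
  rw [wt_eq] at hwt
  refine hwt.trans ?_
  set G : ℕ → ℝ := fun ρ => ∑ j ∈ T A i ρ,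
      (ρ : ℝ) ^ (-(1 / 4 : ℝ)) * F A i s p ((j : ℝ) * (ρ : ℝ) ^ (-(1 / A))) with hG
  have hG0 : ∀ ρ, 0 ≤ G ρ := fun ρ => Finset.sum_nonneg fun j _ =>
    mul_nonneg (Real.rpow_nonneg (Nat.cast_nonneg _) _) (F_nonneg _ _ hs0.le _ _)
  calc ∑ ρ ∈ Finset.Icc 1 ⌊(c : ℝ) ^ (10 * lam)⌋₊, ∑ _j ∈ T A c ρ, (ρ : ℝ) ^ (-(1 / 4 : ℝ))
      ≤ ∑ ρ ∈ Finset.Icc 1 ⌊(c : ℝ) ^ (10 * lam)⌋₊, G (ρ * r) := by
        refine Finset.sum_le_sum fun ρ hρ => ?_
        have hρ1 : (1 : ℝ) ≤ ρ := by exact_mod_cast (Finset.mem_Icc.1 hρ).1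
        have hx : ∀ j ∈ T A c ρ, |u - (j : ℝ) * ((ρ * r : ℕ) : ℝ) ^ (-(1 / A))| ≤ 4 * δ := by
          intro j hj
          have e1 := abs_le.1 (Finset.mem_filter.1 hj).2.2
          have e2 : (j : ℝ) * ((ρ * r : ℕ) : ℝ) ^ (-(1 / A)) = (j : ℝ) * (ρ : ℝ) ^ (-(1 / A)) * δ := by
            push_cast; rw [Real.mul_rpow (by linarith) hr0.le, mul_assoc]
          rw [e2, abs_le]
          constructor <;> nlinarith [e1.1, e1.2]
        have hsub : T A c ρ ⊆ T A i (ρ * r) := by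
          intro j hj
          have e1 := abs_le.1 (hx j hj)
          have e3 : |(j : ℝ) * ((ρ * r : ℕ) : ℝ) ^ (-(1 / A)) - i| ≤ 3 := by
            rw [abs_le]; constructor <;> linarith [e1.1, e1.2]
          refine Finset.mem_filter.2 ⟨Finset.mem_range.2 ?_, (Finset.mem_filter.1 hj).2.1, e3⟩
          have f1 : (1 : ℝ) ≤ ((ρ * r : ℕ) : ℝ) := by push_cast; nlinarith
          have f2 : ((ρ * r : ℕ) : ℝ) ^ (1 / A) ≤ ((ρ * r : ℕ) : ℝ) := by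
            simpa using Real.rpow_le_rpow_of_exponent_le f1 hA1
          have f3 : ((ρ * r : ℕ) : ℝ) ^ (-(1 / A)) * ((ρ * r : ℕ) : ℝ) ^ (1 / A) = 1 := by
            rw [← Real.rpow_add (by linarith)]; simp
          have f4 : (j : ℝ) ≤ ((i : ℝ) + 3) * ((ρ * r : ℕ) : ℝ) := by
            have f5 := (abs_le.1 e3).2
            have f6 : 0 ≤ ((ρ * r : ℕ) : ℝ) ^ (1 / A) := Real.rpow_nonneg (by linarith) _
            calc (j : ℝ) = (j : ℝ) * ((ρ * r : ℕ) : ℝ) ^ (-(1 / A)) * ((ρ * r : ℕ) : ℝ) ^ (1 / A) := by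
                  rw [mul_assoc, f3, mul_one]
              _ ≤ ((i : ℝ) + 3) * ((ρ * r : ℕ) : ℝ) :=
                  mul_le_mul (by linarith) f2 f6 (by linarith)
          have f7 : j ≤ (i + 3) * (ρ * r) := by exact_mod_cast f4
          omega
        refine le_trans (Finset.sum_le_sum fun j hj => ?_)
          (Finset.sum_le_sum_of_subset_of_nonneg hsub fun j _ _ =>
            mul_nonneg (Real.rpow_nonneg (Nat.cast_nonneg _) _) (F_nonneg _ _ hs0.le _ _))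
        have g1 : 2 * q ≤ F A i s p ((j : ℝ) * ((ρ * r : ℕ) : ℝ) ^ (-(1 / A))) := by
          refine le_trans ?_ (Finset.single_le_sum (f := fun k : ℕ =>
            if (2 ^ k * s) ^ 4 ≤ (i : ℝ) ^ (1 / 100 : ℝ) ∧
              |(p : ℝ) ^ (1 / A) - (j : ℝ) * ((ρ * r : ℕ) : ℝ) ^ (-(1 / A))| ≤ 4 / (2 ^ k * s) ^ 2
            then 2 * (2 ^ k * s) else 0) (fun k _ => by
              split_ifs
              · positivity
              · exact le_rfl) hki)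
          rw [if_pos]
          refine ⟨hqr.trans hr3, (hx j hj).trans ?_⟩
          rw [← hq, div_eq_mul_one_div]
          linarith
        have g2 : (ρ : ℝ) ^ (-(1 / 4 : ℝ)) =
            ((ρ * r : ℕ) : ℝ) ^ (-(1 / 4 : ℝ)) * (r : ℝ) ^ (1 / 4 : ℝ) := by
          push_cast
          rw [Real.mul_rpow (by linarith) hr0.le, mul_assoc, ← Real.rpow_add hr0]; simp
        rw [g2]
        exact mul_le_mul_of_nonneg_left (hr14.trans g1) (Real.rpow_nonneg (Nat.cast_nonneg _) _)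
    _ = ∑ ρ ∈ (Finset.Icc 1 ⌊(c : ℝ) ^ (10 * lam)⌋₊).image (· * r), G ρ := by
        rw [Finset.sum_image]
        intro x _ y _ h
        exact Nat.eq_of_mul_eq_mul_right hrN h
    _ ≤ _ := by
        refine Finset.sum_le_sum_of_subset_of_nonneg ?_ fun ρ _ _ => hG0 ρ
        intro x hx
        obtain ⟨ρ, hρ, rfl⟩ := Finset.mem_image.1 hx
        obtain ⟨e1, e2⟩ := Finset.mem_Icc.1 hρ
        refine Finset.mem_Icc.2 ⟨Nat.mul_pos e1 hrN, Nat.le_floor ?_⟩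
        have e3 : (ρ : ℝ) ≤ (i : ℝ) ^ (20 * lam) := by
          calc (ρ : ℝ) ≤ (c : ℝ) ^ (10 * lam) :=
                (Nat.cast_le.2 e2).trans (Nat.floor_le (Real.rpow_nonneg (Nat.cast_nonneg _) _))
            _ ≤ ((i : ℝ) ^ (2 : ℝ)) ^ (10 * lam) :=
                Real.rpow_le_rpow (Nat.cast_nonneg _) hci (by linarith)
            _ = _ := by rw [← Real.rpow_mul hi0.le]; congr 1; ring
        push_cast
        calc (ρ : ℝ) * r ≤ (i : ℝ) ^ (20 * lam) * (i : ℝ) ^ (100 * lam) :=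
              mul_le_mul e3 hr2 hr0.le (Real.rpow_nonneg hi0.le _)
          _ = _ := by rw [← Real.rpow_add hi0]; congr 1; ring

theorem famC : Pool.Agent.H392Z.MO.S_FamC := by
  classical
  intro CR A lam C hCR hR h1 h2 hl0 hl hC hsp θ hθ
  have hev : ∀ᶠ i : ℕ in atTop, C ≤ (i : ℝ) ^ (lam / 2) :=
    ((tendsto_rpow_atTop (by linarith : 0 < lam / 2)).comp
      tendsto_natCast_atTop_atTop).eventually_ge_atTop C
  obtain ⟨i₁, hi₁⟩ := eventually_atTop.1 hev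
  set s₀ : ℝ := max 2 (3200 * CR / θ) with hs₀
  refine ⟨s₀ ^ 4, max i₁ 1024, fun y hy i hi hm => ?_⟩
  have hi2 : 1024 ≤ i := le_trans (le_max_right _ _) hi
  have hi3 := hi₁ i (le_trans (le_max_left _ _) hi)
  have hs2 : 2 ≤ s₀ := le_max_left _ _
  have hi' : (1024 : ℝ) ≤ i := by exact_mod_cast hi2
  have hlog : 0 < Real.log i := Real.log_pos (by linarith)
  have hHH : 0 < HH A i := Real.rpow_pos_of_pos (by linarith) _
  set S := (B A i).filter (fun p : ℕ => p.Prime ∧ ∃ c ∈ Mem A lam, ∃ r : ℕ, y < (r : ℝ) ∧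
          (r : ℝ) ≤ (i : ℝ) ^ (100 * lam) ∧ r * p ∈ B A c) with hS
  have hS1 : ∀ p ∈ S, p ∈ B A i ∧ p.Prime := fun p hp =>
    ⟨(Finset.mem_filter.1 hp).1, (Finset.mem_filter.1 hp).2.1⟩
  set D : ℝ := 1600 * CR * HH A i / (s₀ * Real.log i) with hD
  have hD0 : 0 ≤ D := by positivity
  calc (S.card : ℝ) = ∑ _p ∈ S, (1 : ℝ) := by simp
    _ ≤ ∑ p ∈ S, ∑ ρ ∈ Finset.Icc 1 ⌊(i : ℝ) ^ (120 * lam)⌋₊, ∑ j ∈ T A i ρ,
        (ρ : ℝ) ^ (-(1 / 4 : ℝ)) * F A i s₀ p ((j : ℝ) * (ρ : ℝ) ^ (-(1 / A))) := by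
        refine Finset.sum_le_sum fun p hp => ?_
        obtain ⟨a1, -, c, hc, r, b1, b2, b3⟩ := Finset.mem_filter.1 hp
        exact key h1 h2 hl0 hl hi2 hs2 a1 hc (lt_of_le_of_lt hy b1) b2 b3
    _ = ∑ ρ ∈ Finset.Icc 1 ⌊(i : ℝ) ^ (120 * lam)⌋₊, ∑ j ∈ T A i ρ,
        (ρ : ℝ) ^ (-(1 / 4 : ℝ)) * ∑ p ∈ S, F A i s₀ p ((j : ℝ) * (ρ : ℝ) ^ (-(1 / A))) := by
        rw [Finset.sum_comm]
        refine Finset.sum_congr rfl fun ρ _ => ?_
        rw [Finset.sum_comm]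
        refine Finset.sum_congr rfl fun j _ => ?_
        rw [Finset.mul_sum]
    _ ≤ ∑ ρ ∈ Finset.Icc 1 ⌊(i : ℝ) ^ (120 * lam)⌋₊, ∑ _j ∈ T A i ρ,
        (ρ : ℝ) ^ (-(1 / 4 : ℝ)) * D := by
        refine Finset.sum_le_sum fun ρ _ => Finset.sum_le_sum fun j _ => ?_
        exact mul_le_mul_of_nonneg_left (sum_F hCR hR h1 h2 hi2 (by linarith) S hS1 _)
          (Real.rpow_nonneg (Nat.cast_nonneg _) _)
    _ = (∑ ρ ∈ Finset.Icc 1 ⌊(i : ℝ) ^ (120 * lam)⌋₊, ∑ _j ∈ T A i ρ,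
        (ρ : ℝ) ^ (-(1 / 4 : ℝ))) * D := by
        rw [Finset.sum_mul]
        refine Finset.sum_congr rfl fun ρ _ => ?_
        rw [Finset.sum_mul]
    _ ≤ 2 * D := mul_le_mul_of_nonneg_right
        (sumP (by linarith) h2 hl0 hl hsp hi2 hi3 hm) hD0
    _ ≤ θ * HH A i / Real.log i := by
        have e1 : 3200 * CR / θ ≤ s₀ := le_max_right _ _
        rw [div_le_iff₀ hθ] at e1
        have e2 : 2 * D = (3200 * CR / s₀) * (HH A i / Real.log i) := by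
          rw [hD]; field_simp; ring
        rw [e2, mul_div_assoc θ]
        refine mul_le_mul_of_nonneg_right ?_ (by positivity)
        rw [div_le_iff₀ (by linarith)]
        linarith

end Pool.Agent.H63Z.MO
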